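import Pool.Agent.X23.L3.Up
import Pool.Agent.X43.L3.Vis
import Pool.Agent.X60.L3.Seg
import Pool.Agent.X170.L3.EXT
import Pool.Agent.X188.L3.PT1
import Pool.Agent.X32.LT.NP
import Pool.Agent.X283.LT.Pt2
import Pool.Agent.X69.LT.Irr
import Pool.Agent.X71.L3.Fac
import Pool.Agent.X187.LT.TB

/-!
# `L 3 = 2 / 3`
-/

set_option autoImplicit false

namespace Pool.Agent.X23.L3

open Pool.Agent.X23.FR

theorem L_three : L 3 = 2 / 3 := by
  have hV : S_VIS := Pool.Agent.X43.L3.t_VIS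
  have hS : S_SEG := Pool.Agent.X60.L3.t_SEG hV
  have hN : S_NP := Pool.Agent.X32.LT.t_NP hS
  have hP1 : S_PT1 := Pool.Agent.X188.L3.t_PT1 hS Pool.Agent.X170.L3.t_EXTA
    Pool.Agent.X170.L3.t_EXTB Pool.Agent.X71.L3.t_FAC
  have hP2 : S_PT2 := Pool.Agent.X283.LT.t_PT2 hV hP1
  have hT : S_TB := Pool.Agent.X187.LT.t_TB hN hP2
  exact L3_eq hT Pool.Agent.X69.LT.t_IRR

end Pool.Agent.X23.L3
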