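import Mathlib

/-!
# Parts for L_3 <= 2/3 (MP_688354_co)

All parts: prove `theorem t_XXX : Pool.Agent.X23.L3.S_XXX` (or `S_A -> S_XXX` where indicated).
-/

set_option autoImplicit false

namespace Pool.Agent.X23.L3

/-- an irredundant bounded system of half-spaces in `ℝ³` with an interior point `o` and points `y i`
in the relative interiors of the facets -/
structure Sys (n : ℕ) where
  a : Fin n → Fin 3 → ℝ
  b : Fin n → ℝ
  o : Fin 3 → ℝ
  y : Fin n → Fin 3 → ℝ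
  ho : ∀ i, a i ⬝ᵥ o < b i
  hy : ∀ i, a i ⬝ᵥ y i = b i
  hy2 : ∀ i j, j ≠ i → a j ⬝ᵥ y i < b j
  bd : ∃ C : ℝ, ∀ x, (∀ i, a i ⬝ᵥ x ≤ b i) → ∀ k, |x k| ≤ C

/-- two facets have a common point -/
def touch {n : ℕ} (X : Sys n) (i j : Fin n) : Prop :=
  ∃ x, (∀ k, X.a k ⬝ᵥ x ≤ X.b k) ∧ X.a i ⬝ᵥ x = X.b i ∧ X.a j ⬝ᵥ x = X.b j

/-- VIS: the facets visible from a point `q` are connected through common points.
Proof: let V = {k | b k < a k q}. For z in P and k in V put
tau k z = (b k - a k z)/(a k q - a k z) (denominator > 0). For t in [0,1] put z t = (1-t) y i + t y j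
and C k = {t in [0,1] | for all l in V, tau k (z t) <= tau l (z t)}: closed, they cover [0,1].
If t is in C k and in C l (k, l in V), the point z + tau (q - z) (tau = tau k z = tau l z, in [0,1))
lies in P (constraints outside V hold at z and q) and is tight at k and l, so touch k l. 0 is in C i
(tau i (y i) = 0, all others >= 0), 1 is in C j. If j is not in R then the union of C k over k in
V inter R and the union over V minus R are disjoint closed nonempty sets covering [0,1]: contradiction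
(isPreconnected_Icc, isPreconnected_closed_iff). -/
def S_VIS : Prop := ∀ (n : ℕ) (X : Sys n) (q : Fin 3 → ℝ) (R : Set (Fin n)) (i j : Fin n), i ∈ R →
  X.b i < X.a i ⬝ᵥ q → X.b j < X.a j ⬝ᵥ q →
  (∀ k ∈ R, ∀ l, X.b k < X.a k ⬝ᵥ q → X.b l < X.a l ⬝ᵥ q → touch X k l → l ∈ R) → j ∈ R

/-- SEG (prove S_VIS → S_SEG): a segment outside `P` and inside the constraints of `S` sees facets of
only one closed set. Proof: the sets of t in [0,1] such that some k in R (resp. some k not in R) is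
violated at x + t (x' - x) are open, cover [0,1] (violated k are not in S, by convexity), and are
disjoint by VIS. -/
def S_SEG : Prop := ∀ (n : ℕ) (X : Sys n) (S : Finset (Fin n)) (R : Set (Fin n)),
  (∀ k ∈ R, ∀ l, l ∉ S → touch X k l → l ∈ R) →
  ∀ x x' : Fin 3 → ℝ, (∀ s ∈ S, X.a s ⬝ᵥ x ≤ X.b s) → (∀ s ∈ S, X.a s ⬝ᵥ x' ≤ X.b s) →
  (∀ t : ℝ, 0 ≤ t → t ≤ 1 → ∃ k, X.b k < X.a k ⬝ᵥ (x + t • (x' - x))) →
  (∃ i ∈ R, X.b i < X.a i ⬝ᵥ x) → ∀ j, X.b j < X.a j ⬝ᵥ x' → j ∈ R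

/-- a family of disjoint nonempty sets of facets outside `S`, closed under touching outside `S` -/
structure Fam {n : ℕ} (X : Sys n) (S : Finset (Fin n)) {κ : Type} (R : κ → Set (Fin n)) : Prop where
  ne : ∀ r, (R r).Nonempty
  out : ∀ r i, i ∈ R r → i ∉ S
  disj : ∀ r r' i, i ∈ R r → i ∈ R r' → r = r'
  cl : ∀ r k l, k ∈ R r → l ∉ S → touch X k l → l ∈ R r

/-- NP (prove S_SEG → S_NP): the normals of `S` do not span.
Proof: by `X.bd` there is T with |v⬝x| < T on P. For i in R r: if a i v > 0, then x = y i + t v with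
t large satisfies all constraints of S, violates i and v⬝x > T (v⬝v > 0); any two points with
v⬝x > T satisfying S are joined by a segment outside P, so by SEG all those r coincide; similarly for
a i v < 0 with t -> -oo; if a i v = 0 take x = y i + ε a i + t v with small ε > 0 (violates i,
satisfies S since i is not in S): both sides. So card κ ≤ 2. If S = ∅: take v ≠ 0 with a i v = 0 for
an i in R r; then the +side and the -side both give r. -/
def S_NP : Prop := ∀ (n : ℕ) (X : Sys n) (S : Finset (Fin n)) (κ : Type) [Fintype κ]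
  (R : κ → Set (Fin n)), Fam X S R → ∀ v : Fin 3 → ℝ, v ≠ 0 → (∀ s ∈ S, X.a s ⬝ᵥ v = 0) →
  Fintype.card κ ≤ 2 ∧ (S = ∅ → Fintype.card κ ≤ 1)

/-- lexicographic positivity for `f, x0, x1, x2` -/
def lp (f v : Fin 3 → ℝ) : Prop :=
  0 < f ⬝ᵥ v ∨ (f ⬝ᵥ v = 0 ∧ (0 < v 0 ∨ (v 0 = 0 ∧ (0 < v 1 ∨ (v 1 = 0 ∧ 0 < v 2)))))

/-- EXTA: a linear functional on a bounded polyhedron has a maximum at a point whose tight
constraints span. Proof: compactness, then `IsCompact.extremePoints_nonempty` for the (compact) set of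
maximizers; at an extreme point q, if v ≠ 0 is orthogonal to the tight constraints then q ± t v is in
the set of maximizers for small t (then g v = 0 too). Or: maximize g, then x0, x1, x2 one after another. -/
def S_EXTA : Prop := ∀ (J : Type) [Fintype J] (c : J → Fin 3 → ℝ) (d : J → ℝ),
  (∃ C : ℝ, ∀ x, (∀ j, c j ⬝ᵥ x ≤ d j) → ∀ k, |x k| ≤ C) → (∃ x, ∀ j, c j ⬝ᵥ x ≤ d j) →
  ∀ g : Fin 3 → ℝ, ∃ q, (∀ j, c j ⬝ᵥ q ≤ d j) ∧ (∀ x, (∀ j, c j ⬝ᵥ x ≤ d j) → g ⬝ᵥ x ≤ g ⬝ᵥ q) ∧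
    (∀ v, (∀ j, c j ⬝ᵥ q = d j → c j ⬝ᵥ v = 0) → v = 0)

/-- EXTB: the lexicographic maximum exists and its tight constraints span (maximize f⬝x, x0, x1, x2
one after another; if v ≠ 0 is orthogonal to the tight constraints then q ± t v is feasible for small
t > 0, contradiction). EXTB implies EXTA with f = g. -/
def S_EXTB : Prop := ∀ (J : Type) [Fintype J] (c : J → Fin 3 → ℝ) (d : J → ℝ),
  (∃ C : ℝ, ∀ x, (∀ j, c j ⬝ᵥ x ≤ d j) → ∀ k, |x k| ≤ C) → (∃ x, ∀ j, c j ⬝ᵥ x ≤ d j) →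
  ∀ f : Fin 3 → ℝ, ∃ q, (∀ j, c j ⬝ᵥ q ≤ d j) ∧
    (∀ x, (∀ j, c j ⬝ᵥ x ≤ d j) → x ≠ q → lp f (q - x)) ∧
    (∀ v, (∀ j, c j ⬝ᵥ q = d j → c j ⬝ᵥ v = 0) → v = 0)

/-- FAC: a vertex `q` is the lexicographic maximum or minimum of one of the tight facets.
Proof: choose three linearly independent tight constraints c1, c2, c3 (they span), dual basis
w1, w2, w3 (ci wj = δij), so x - q = Σ ci(x - q) wi. Two of the wi, say w1, w2, have the same lex sign
(lp f wi or lp f (-wi)). On the facet c3 x = d3: x - q = c1(x-q) w1 + c2(x-q) w2 with both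
coefficients <= 0, not both 0 if x ≠ q. lp f is closed under sums and positive multiples. -/
def S_FAC : Prop := ∀ (J : Type) [Fintype J] (c : J → Fin 3 → ℝ) (d : J → ℝ) (q : Fin 3 → ℝ),
  (∀ j, c j ⬝ᵥ q ≤ d j) → (∀ v, (∀ j, c j ⬝ᵥ q = d j → c j ⬝ᵥ v = 0) → v = 0) →
  ∀ f : Fin 3 → ℝ, ∃ j, c j ⬝ᵥ q = d j ∧
    ((∀ x, (∀ i, c i ⬝ᵥ x ≤ d i) → c j ⬝ᵥ x = d j → x ≠ q → lp f (q - x)) ∨
     (∀ x, (∀ i, c i ⬝ᵥ x ≤ d i) → c j ⬝ᵥ x = d j → x ≠ q → lp f (x - q)))

/-- PT1 (prove S_SEG → S_EXTA → S_EXTB → S_FAC → S_PT1): the normals of `S` span. For every r there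
is a feasible point q of Q' = {S-constraints, f x ≤ T'}, violating some i in R r, and s in S, such that
q is the lex-max or the lex-min of the facet s of Q'.
Given: f, T with f x < T on P and Q' bounded.
Case 1: all points of Q violating some i in R r have f x < T. Choose i in R r, x = y i + ε a i in Q
violating i; EXTA for Q' (index type Option S) and g = a i gives q with b i < a i q, so f q < T, the
tight constraints at q are in S, FAC.
Case 2: some x0 in Q violating some i in R r has f x0 ≥ T. EXTB gives the lex-max q of Q'. As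
f o < T ≤ f x0 there is a point of Q' with f = T, so f q = T (lex-max), so q is not in P; the segment
from x0 to q is in Q and in f ≥ T so outside P; by SEG the violated constraints at q are in R r.
The tight constraints at q span R^3 so some s in S is tight (3 > 1: the vectors orthogonal to f). -/
def S_PT1 : Prop := ∀ (n : ℕ) (X : Sys n) (S : Finset (Fin n)) (κ : Type)
  (R : κ → Set (Fin n)), Fam X S R → (∀ v : Fin 3 → ℝ, (∀ s ∈ S, X.a s ⬝ᵥ v = 0) → v = 0) →
  ∀ (f : Fin 3 → ℝ) (T : ℝ), (∀ x, (∀ i, X.a i ⬝ᵥ x ≤ X.b i) → f ⬝ᵥ x < T) →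
  (∃ C : ℝ, ∀ x, (∀ s ∈ S, X.a s ⬝ᵥ x ≤ X.b s) → f ⬝ᵥ x ≤ T → ∀ k, |x k| ≤ C) →
  ∀ r, ∃ q s, s ∈ S ∧ (∀ s ∈ S, X.a s ⬝ᵥ q ≤ X.b s) ∧ f ⬝ᵥ q ≤ T ∧ X.a s ⬝ᵥ q = X.b s ∧
    (∃ i ∈ R r, X.b i < X.a i ⬝ᵥ q) ∧
    ((∀ x, (∀ s ∈ S, X.a s ⬝ᵥ x ≤ X.b s) → f ⬝ᵥ x ≤ T → X.a s ⬝ᵥ x = X.b s → x ≠ q → lp f (q - x)) ∨
     (∀ x, (∀ s ∈ S, X.a s ⬝ᵥ x ≤ X.b s) → f ⬝ᵥ x ≤ T → X.a s ⬝ᵥ x = X.b s → x ≠ q → lp f (x - q)))

/-- PT2 (prove S_VIS → S_PT1 → S_PT2): counting. Take f = - Σ_{s in S} a s, T larger than f on P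
(bounded by X.bd); Q' is bounded: on Q', a s x ≤ b s and - a s x = f x + Σ_{s' ≠ s} a s' x ≤ T + Σ |b|,
so all a s x are bounded and the a s span. PT1 gives r ↦ (s, max or min), injective: equal pairs give
equal q (lex-max unique: lp f v and lp f (-v) not both), and then VIS gives r = r' (constraints visible
from q are outside S). So card κ ≤ 2 |S|. -/
def S_PT2 : Prop := ∀ (n : ℕ) (X : Sys n) (S : Finset (Fin n)) (κ : Type) [Fintype κ]
  (R : κ → Set (Fin n)), Fam X S R → (∀ v : Fin 3 → ℝ, (∀ s ∈ S, X.a s ⬝ᵥ v = 0) → v = 0) →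
  Fintype.card κ ≤ 2 * S.card

/-- TB (prove S_NP → S_PT2 → S_TB, with Pool.Agent.H168DD.TB : H168DD.tutte_berge). Proof: for a family
F of disjoint nonempty (odd) sets closed under touching outside A: card F ≤ 2 |A|, or A = ∅ and
card F ≤ 1 (NP if the normals of A do not span, PT2 otherwise). n ≥ 3 (else some v ≠ 0 is orthogonal to
all a i and o + t v is in P for all t). So 3 (card F - |A|) ≤ n because card F + |A| ≤ n. Let l0 = n/3
(floor). If n + l0 is even apply tutte_berge with l = l0. If it is odd apply it with l = l0 - 1 (l0 ≥ 1):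
if card F = |A| + l0 then the rest (univ minus A minus the union of F) has odd cardinality and is closed,
adding it to F gives a contradiction. We get U with |U| ≤ n/3 and a perfect matching m outside U. K = the
points y i (i in U) and one common point for each pair {x, m x}: card K = |U| + (n-|U|)/2 ≤ 2n/3. -/
def S_TB : Prop := ∀ (n : ℕ) (X : Sys n), ∃ K : Finset (Fin 3 → ℝ), 3 * K.card ≤ 2 * n ∧
  (∀ x ∈ K, (∀ k, X.a k ⬝ᵥ x ≤ X.b k) ∧ ∃ i, X.a i ⬝ᵥ x = X.b i) ∧ ∀ i, ∃ x ∈ K, X.a i ⬝ᵥ x = X.b i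

end Pool.Agent.X23.L3
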