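import Pool.Agent.X23.L3.Stm
import Pool.Agent.X23.FR.Gen

set_option autoImplicit false

namespace Pool.Agent.X23.L3

open Pool.Agent.X23.FR

/-- IRR: a polytope has an irredundant representation. Proof: take a finite set `H` of half-spaces
defining `P` of minimal cardinality (Nat.find / Finset.exists_min_image). The interior point o satisfies
all strictly: elements (0, c) of H can be removed (P nonempty), and for h.1 ≠ 0 use FR.push. Each h in H
is irredundant: some z satisfies all others and violates h; the point y of the segment [o, z] with
h.1 y = h.2 satisfies all others strictly. Facets: FR.facet_of (each h gives a facet), FR.facet_eq (each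
facet is given by some h), distinct h give distinct facets (y h is not in the others), so
facetNum = card H. Enumerate H by Fin n (H.equivFin). Boundedness from Bornology.IsBounded
(norm bound, norm_le_pi_norm). -/
def S_IRR : Prop := ∀ P : Set (Fin 3 → ℝ), IsPoly 3 P → ∃ (n : ℕ) (X : Sys n),
  P = {x | ∀ i, X.a i ⬝ᵥ x ≤ X.b i} ∧ facetNum 3 P = n ∧
  ∀ F, IsFacet 3 P F → ∃ i, F = {x | x ∈ P ∧ X.a i ⬝ᵥ x = X.b i}

end Pool.Agent.X23.L3
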