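import Pool.Agent.X23.L3.Stm2
import Pool.Agent.X23.FR.Ex3

/-!
# `L 3 = 2 / 3` from the parts
-/

set_option autoImplicit false

namespace Pool.Agent.X23.L3

open Pool.Agent.X23.FR

theorem rep_le (hTB : S_TB) (hIRR : S_IRR) (P : Set (Fin 3 → ℝ)) (hP : IsPoly 3 P) :
    3 * repNum 3 P ≤ 2 * facetNum 3 P := by
  obtain ⟨n, X, hPdef, hn, hF⟩ := hIRR P hP
  obtain ⟨K, hK1, hK2, hK3⟩ := hTB n X
  have hle : repNum 3 P ≤ K.card := by
    unfold repNum
    apply Nat.sInf_le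
    refine ⟨K, rfl, ?_, ?_⟩
    · intro x hx
      obtain ⟨h1, i, h2⟩ := hK2 x hx
      have hai : X.a i ≠ 0 := by
        intro h0
        have h3 := X.ho i
        have h4 := X.hy i
        rw [h0, zero_dotProduct] at h3 h4
        linarith
      have hfac : IsFacet 3 P {x | x ∈ P ∧ X.a i ⬝ᵥ x = X.b i} :=
        facet_of (a := X.a) (b := X.b) (z := X.y i) hPdef hai (X.hy i) (X.hy2 i)
      have hxP : x ∈ P := by
        rw [hPdef]
        exact h1
      exact facet_frontier (by omega) hP.2.2.1 hfac ⟨hxP, h2⟩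
    · intro F hFF
      obtain ⟨i, hi⟩ := hF F hFF
      obtain ⟨x, hx, hx2⟩ := hK3 i
      refine ⟨x, hx, ?_⟩
      rw [hi, hPdef]
      exact ⟨(hK2 x hx).1, hx2⟩
  rw [hn]
  omega

theorem L3_eq (hTB : S_TB) (hIRR : S_IRR) : L 3 = 2 / 3 := by
  apply le_antisymm _ L3_ge
  apply csSup_le
  · exact ⟨_, cP3 1, isPoly_of (a := ca3 1) (b := cb3 1) rfl (cP3_bdd 1 le_rfl) (zero_int3 1)
      (cP3_sym 1), rfl⟩
  · rintro r ⟨P, hP, rfl⟩
    have h := rep_le hTB hIRR P hP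
    have h' : 3 * (repNum 3 P : ℝ) ≤ 2 * facetNum 3 P := by exact_mod_cast h
    rcases Nat.eq_zero_or_pos (facetNum 3 P) with h0 | h0
    · rw [h0]
      norm_num
    · have h0' : (0 : ℝ) < facetNum 3 P := by exact_mod_cast h0
      rw [div_le_div_iff₀ h0' (by norm_num)]
      linarith

end Pool.Agent.X23.L3
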